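import Pool.Agent.Helper61.Tri.Goals2

/-! Packet E8. -/

set_option autoImplicit false

open Finset

namespace Pool.Agent.Helper65.Tri

open Pool.Agent.Helper61.Tri

open scoped Classical

theorem ep4 {V : Type} {G : SimpleGraph V} (v0 a0 v1 a1 v2 a2 v3 a3 v4 : V)
    (hnd : [v0, v1, v2, v3, v4, a0, a1, a2, a3].Nodup)
    (e0 : G.Adj v0 v1) (f0 : G.Adj v0 a0) (g0 : G.Adj v1 a0)
    (e1 : G.Adj v1 v2) (f1 : G.Adj v1 a1) (g1 : G.Adj v2 a1)
    (e2 : G.Adj v2 v3) (f2 : G.Adj v2 a2) (g2 : G.Adj v3 a2)
    (e3 : G.Adj v3 v4) (f3 : G.Adj v3 a3) (g3 : G.Adj v4 a3) :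
    EP G 4 v0 v4 [v0, v1, v2, v3, v4, a0, a1, a2, a3].toFinset := by
  simp only [List.nodup_cons, List.mem_cons, List.not_mem_nil, or_false, not_or, List.nodup_nil,
    and_true, not_false_eq_true] at hnd
  refine ⟨fun n => match n with
    | 0 => v0
    | 1 => v1
    | 2 => v2
    | 3 => v3
    | _ => v4, fun n => match n with
    | 0 => a0
    | 1 => a1
    | 2 => a2
    | _ => a3, ⟨?_, ?_, ?_, ?_⟩, rfl, rfl, ?_, ?_⟩
  · intro i hi
    interval_cases i
    · exact ⟨e0, f0, g0⟩
    · exact ⟨e1, f1, g1⟩
    · exact ⟨e2, f2, g2⟩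
    · exact ⟨e3, f3, g3⟩
  · intro i hi j hj h
    interval_cases i <;> interval_cases j <;> simp_all
  · intro i hi j hj h
    interval_cases i <;> interval_cases j <;> simp_all
  · intro i hi j hj h
    interval_cases i <;> interval_cases j <;> simp_all
  · intro i hi
    interval_cases i <;> simp
  · intro i hi
    interval_cases i <;> simp

theorem fin8 (hT : EPTools) (hL : Link) {s : ℕ} (hs : 2 ≤ s) {V : Type} [Fintype V]
    {G : SimpleGraph V} {m : ℕ} {x w : ℕ → V} {c : Fin (s - 1) → V} (hm : 40 * s + 100 ≤ m)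
    (hg : Grid G m x w) (hc : Function.Injective c) (hcen : ∀ l, Center G m x w (c l))
    (a b : V) (ha : ∃ i < m, a = x i ∨ a = w i) (hb : ∃ i < m, b = x i ∨ b = w i) (hab : a ≠ b)
    (S : Finset V) (hS : EP G 4 a b S) (hcard : S.card ≤ 9) (hcS : ∀ l, c l ∉ S) :
    Has Kind.P s G ∧ Has Kind.Ce s G := by
  -- grid vertices and centres
  have hadj : ∀ v, (∃ i < m, v = x i ∨ v = w i) → ∀ l, G.Adj v (c l) ∧
      m ≤ (cn G v (c l)).card := by
    rintro v ⟨i, hi, rfl | rfl⟩ l
    · refine ⟨(hcen l i hi).1, ?_⟩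
      calc m = ((Finset.range m).image w).card := by
            rw [Finset.card_image_of_injOn, Finset.card_range]
            intro j hj j' hj' h
            exact hg.injw j (by simpa using hj) j' (by simpa using hj') h
        _ ≤ _ := by
            refine Finset.card_le_card ?_
            intro v hv
            obtain ⟨j, hj, rfl⟩ := Finset.mem_image.1 hv
            have hj' : j < m := by simpa using hj
            simp only [cn, Finset.mem_filter, Finset.mem_univ, true_and]
            exact ⟨hg.adj i hi j hj', (hcen l j hj').2.symm⟩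
    · refine ⟨(hcen l i hi).2, ?_⟩
      calc m = ((Finset.range m).image x).card := by
            rw [Finset.card_image_of_injOn, Finset.card_range]
            intro j hj j' hj' h
            exact hg.injx j (by simpa using hj) j' (by simpa using hj') h
        _ ≤ _ := by
            refine Finset.card_le_card ?_
            intro v hv
            obtain ⟨j, hj, rfl⟩ := Finset.mem_image.1 hv
            have hj' : j < m := by simpa using hj
            simp only [cn, Finset.mem_filter, Finset.mem_univ, true_and]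
            exact ⟨(hg.adj j hj' i hi).symm, (hcen l j hj').1.symm⟩
  set L : List V := List.ofFn c with hLdef
  have hLlen : L.length = s - 1 := List.length_ofFn
  have hLnd : L.Nodup := List.nodup_ofFn.2 hc
  have hLmem : ∀ d ∈ L, ∃ l, d = c l := by
    intro d hd
    obtain ⟨l, hl⟩ := List.mem_ofFn.1 hd
    exact ⟨l, hl.symm⟩
  have hLne : L ≠ [] := by
    intro h
    rw [h] at hLlen
    simp at hLlen
    omega
  set Z : Finset V := (Finset.range m).image x with hZ
  have hZc : Z.card = m := by
    rw [hZ, Finset.card_image_of_injOn, Finset.card_range]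
    intro j hj j' hj' h
    exact hg.injx j (by simpa using hj) j' (by simpa using hj') h
  have hZ1 : ∀ z ∈ Z, ∀ d ∈ L, G.Adj z d ∧ m ≤ (cn G z d).card := by
    intro z hz d hd
    obtain ⟨l, rfl⟩ := hLmem d hd
    obtain ⟨i, hi, rfl⟩ := Finset.mem_image.1 hz
    exact hadj _ ⟨i, by simpa using hi, Or.inl rfl⟩ l
  have hnotL : ∀ v, (∃ i < m, v = x i ∨ v = w i) → v ∉ L := by
    intro v hv h
    obtain ⟨l, rfl⟩ := hLmem v h
    exact G.loopless.irrefl _ (hadj _ hv l).1
  have link : ∀ p q : V, (∃ i < m, p = x i ∨ p = w i) → (∃ i < m, q = x i ∨ q = w i) → p ≠ q →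
      ∀ S' : Finset V, S' ⊆ S → p ∉ S' → q ∉ S' →
      ∃ S'', EP G (2 * (s - 1)) p q S'' ∧ Disjoint S' S'' := by
    intro p q hp hq hpq S' hS' hpS hqS
    have h1 := hL V G L Z S' p q m hLnd hLne hpq (hnotL p hp) (hnotL q hq) hpS hqS
      (fun d hd h => by
        obtain ⟨l, rfl⟩ := hLmem d hd
        exact hcS l (hS' h))
      hZ1 hZc.ge
      (fun d hd => by
        obtain ⟨l, rfl⟩ := hLmem d (List.mem_of_mem_head? hd)
        exact hadj p hp l)
      (fun d hd => by
        obtain ⟨l, rfl⟩ := hLmem d (List.mem_of_getLast? hd)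
        exact hadj q hq l)
      (by
        have := Finset.card_le_card hS'
        rw [hLlen]; omega)
    rwa [hLlen] at h1
  constructor
  · -- path
    obtain ⟨i, hi, hiS⟩ : ∃ i < m, x i ∉ S := by
      by_contra hcon
      push Not at hcon
      have : Z ⊆ S := by
        intro z hz
        obtain ⟨i, hi, rfl⟩ := Finset.mem_image.1 hz
        exact hcon i (by simpa using hi)
      have := Finset.card_le_card this
      omega
    by_cases hbx : b = x i
    · -- cannot happen unless `b ∉ S`
      have hbS : b ∈ S := by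
        obtain ⟨cc, aa, _, _, h4, h5, _⟩ := hS
        rw [← h4]; exact h5 4 le_rfl
      rw [hbx] at hbS
      exact absurd hbS hiS
    · obtain ⟨S'', h1, h2⟩ := link b (x i) hb ⟨i, hi, Or.inl rfl⟩ hbx (S.erase b)
        (Finset.erase_subset _ _) (Finset.notMem_erase _ _)
        (fun h => hiS (Finset.mem_of_mem_erase h))
      have h3 := hT.trans hS h1 (by
        intro v hv
        rw [Finset.mem_inter] at hv
        by_contra hne
        rw [Finset.mem_singleton] at hne
        exact (Finset.disjoint_left.1 h2) (Finset.mem_erase.2 ⟨hne, hv.1⟩) hv.2)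
      show EPath G (2 * s + 2)
      have e : 4 + 2 * (s - 1) = 2 * s + 2 := by omega
      rw [e] at h3
      exact ⟨_, _, _, h3⟩
  · obtain ⟨S'', h1, h2⟩ := link b a hb ha hab.symm ((S.erase b).erase a)
      ((Finset.erase_subset _ _).trans (Finset.erase_subset _ _))
      (fun h => Finset.notMem_erase _ _ (Finset.mem_of_mem_erase h)) (Finset.notMem_erase _ _)
    have h3 := hT.close hS h1 (by
      intro v hv
      rw [Finset.mem_inter] at hv
      by_contra hne
      rw [Finset.mem_insert, Finset.mem_singleton, not_or] at hne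
      exact (Finset.disjoint_left.1 h2)
        (Finset.mem_erase.2 ⟨hne.1, Finset.mem_erase.2 ⟨hne.2, hv.1⟩⟩) hv.2) (by norm_num)
      (by omega)
    show ECyc G (2 * s + 2)
    have e : 4 + 2 * (s - 1) = 2 * s + 2 := by omega
    rwa [e] at h3

theorem e8 : EPTools → Link → E8 := by
  intro hT hL s hs V _ G m x w c y u z hm h
  have hm4 : 4 ≤ m := by omega
  have lt4 : ∀ i : ℕ, i < 4 → i < m := fun i hi => lt_of_lt_of_le hi hm4
  have hxw : ∀ i j : ℕ, i < 4 → j < 4 → x i ≠ w j := fun i j hi hj =>
    (h.grid.adj i (lt4 i hi) j (lt4 j hj)).ne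
  have hxx : ∀ i j : ℕ, i < 4 → j < 4 → i ≠ j → x i ≠ x j := fun i j hi hj hij he =>
    hij (h.grid.injx i (lt4 i hi) j (lt4 j hj) he)
  have hww : ∀ i j : ℕ, i < 4 → j < 4 → i ≠ j → w i ≠ w j := fun i j hi hj hij he =>
    hij (h.grid.injw i (lt4 i hi) j (lt4 j hj) he)
  have hyx : ∀ i j k : ℕ, i < 4 → j < 4 → k < 4 → y i j ≠ x k := fun i j k hi hj hk =>
    h.apex.nx i (lt4 i hi) j (lt4 j hj) k (lt4 k hk) k (lt4 k hk)
  have hyw : ∀ i j k : ℕ, i < 4 → j < 4 → k < 4 → y i j ≠ w k := fun i j k hi hj hk =>
    h.apex.nw i (lt4 i hi) j (lt4 j hj) k (lt4 k hk) k (lt4 k hk)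
  have hyy : ∀ i j i' j' : ℕ, i < 4 → j < 4 → i' < 4 → j' < 4 → i ≠ i' → j ≠ j' →
      y i j ≠ y i' j' := fun i j i' j' hi hj hi' hj' h1 h2 =>
    h.apex.di i (lt4 i hi) j (lt4 j hj) i' (lt4 i' hi') j' (lt4 j' hj') h1 h2
  have hux : ∀ i j k : ℕ, i < 4 → j < 4 → k < 4 → u i j ≠ x k := fun i j k hi hj hk =>
    h.ux i (lt4 i hi) j (lt4 j hj) k (lt4 k hk) k (lt4 k hk)
  have huw : ∀ i j k : ℕ, i < 4 → j < 4 → k < 4 → u i j ≠ w k := fun i j k hi hj hk =>
    h.uw i (lt4 i hi) j (lt4 j hj) k (lt4 k hk) k (lt4 k hk)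
  have hzx : ∀ i j k : ℕ, i < 4 → j < 4 → k < 4 → z i j ≠ x k := fun i j k hi hj hk =>
    h.zx i (lt4 i hi) j (lt4 j hj) k (lt4 k hk) k (lt4 k hk)
  have hzw : ∀ i j k : ℕ, i < 4 → j < 4 → k < 4 → z i j ≠ w k := fun i j k hi hj hk =>
    h.zw i (lt4 i hi) j (lt4 j hj) k (lt4 k hk) k (lt4 k hk)
  have huy : ∀ i j i' j' : ℕ, i < 4 → j < 4 → i' < 4 → j' < 4 → u i j ≠ y i' j' :=
    fun i j i' j' hi hj hi' hj' =>
    h.uy i (lt4 i hi) j (lt4 j hj) i' (lt4 i' hi') j' (lt4 j' hj')
  have hzy : ∀ i j i' j' : ℕ, i < 4 → j < 4 → i' < 4 → j' < 4 → z i j ≠ y i' j' :=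
    fun i j i' j' hi hj hi' hj' =>
    h.zy i (lt4 i hi) j (lt4 j hj) i' (lt4 i' hi') j' (lt4 j' hj')
  have huz : ∀ i j i' j' : ℕ, i < 4 → j < 4 → i' < 4 → j' < 4 → u i j ≠ z i' j' :=
    fun i j i' j' hi hj hi' hj' =>
    h.uz i (lt4 i hi) j (lt4 j hj) i' (lt4 i' hi') j' (lt4 j' hj')
  have hcx : ∀ l (i : ℕ), i < 4 → c l ≠ x i := fun l i hi => (h.cen l i (lt4 i hi)).1.ne'
  have hcw : ∀ l (i : ℕ), i < 4 → c l ≠ w i := fun l i hi => (h.cen l i (lt4 i hi)).2.ne'
  have hcy : ∀ l (i j : ℕ), i < 4 → j < 4 → c l ≠ y i j := fun l i j hi hj =>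
    (h.yc l i (lt4 i hi) j (lt4 j hj) 0 (by omega) 0 (by omega)).symm
  have hcu : ∀ l (i j : ℕ), i < 4 → j < 4 → c l ≠ u i j := fun l i j hi hj =>
    (h.uc l i (lt4 i hi) j (lt4 j hj) 0 (by omega) 0 (by omega)).symm
  have hcz : ∀ l (i j : ℕ), i < 4 → j < 4 → c l ≠ z i j := fun l i j hi hj =>
    (h.zc l i (lt4 i hi) j (lt4 j hj) 0 (by omega) 0 (by omega)).symm
  have axw : ∀ i j : ℕ, i < 4 → j < 4 → G.Adj (x i) (w j) := fun i j hi hj =>
    h.grid.adj i (lt4 i hi) j (lt4 j hj)
  have axy : ∀ i j : ℕ, i < 4 → j < 4 → G.Adj (x i) (y i j) := fun i j hi hj =>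
    h.apex.adjx i (lt4 i hi) j (lt4 j hj)
  have awy : ∀ i j : ℕ, i < 4 → j < 4 → G.Adj (w j) (y i j) := fun i j hi hj =>
    h.apex.adjw i (lt4 i hi) j (lt4 j hj)
  have axu : ∀ i j : ℕ, i < 4 → j < 4 → G.Adj (x i) (u i j) := fun i j hi hj =>
    (h.uadj i (lt4 i hi) j (lt4 j hj)).1
  have ayu : ∀ i j : ℕ, i < 4 → j < 4 → G.Adj (y i j) (u i j) := fun i j hi hj =>
    (h.uadj i (lt4 i hi) j (lt4 j hj)).2
  have awz : ∀ i j : ℕ, i < 4 → j < 4 → G.Adj (w j) (z i j) := fun i j hi hj =>
    (h.zadj i (lt4 i hi) j (lt4 j hj)).1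
  have ayz : ∀ i j : ℕ, i < 4 → j < 4 → G.Adj (y i j) (z i j) := fun i j hi hj =>
    (h.zadj i (lt4 i hi) j (lt4 j hj)).2
  by_cases h01 : y 0 1 = y 0 0
  · -- case (ii)
    have n1 : y 2 0 ≠ y 0 0 := by
      rw [← h01]
      exact hyy 2 0 0 1 (by norm_num) (by norm_num) (by norm_num) (by norm_num) (by norm_num)
        (by norm_num)
    have n2 : y 3 1 ≠ y 0 0 := hyy 3 1 0 0 (by norm_num) (by norm_num) (by norm_num) (by norm_num)
      (by norm_num) (by norm_num)
    have n3 : y 2 0 ≠ y 3 1 := hyy 2 0 3 1 (by norm_num) (by norm_num) (by norm_num) (by norm_num)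
      (by norm_num) (by norm_num)
    have hnd : [x 2, w 0, y 0 0, w 1, x 3, y 2 0, x 0, z 0 1, y 3 1].Nodup := by
      simp only [List.nodup_cons, List.mem_cons, List.not_mem_nil, or_false, not_or,
        List.nodup_nil, and_true, not_false_eq_true]
      and_intros <;> first
        | exact hxw _ _ (by norm_num) (by norm_num)
        | exact (hxw _ _ (by norm_num) (by norm_num)).symm
        | exact hxx _ _ (by norm_num) (by norm_num) (by norm_num)
        | exact hww _ _ (by norm_num) (by norm_num) (by norm_num)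
        | exact hyx _ _ _ (by norm_num) (by norm_num) (by norm_num)
        | exact (hyx _ _ _ (by norm_num) (by norm_num) (by norm_num)).symm
        | exact hyw _ _ _ (by norm_num) (by norm_num) (by norm_num)
        | exact (hyw _ _ _ (by norm_num) (by norm_num) (by norm_num)).symm
        | exact hzx _ _ _ (by norm_num) (by norm_num) (by norm_num)
        | exact (hzx _ _ _ (by norm_num) (by norm_num) (by norm_num)).symm
        | exact hzw _ _ _ (by norm_num) (by norm_num) (by norm_num)
        | exact (hzw _ _ _ (by norm_num) (by norm_num) (by norm_num)).symm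
        | exact hzy _ _ _ _ (by norm_num) (by norm_num) (by norm_num) (by norm_num)
        | exact (hzy _ _ _ _ (by norm_num) (by norm_num) (by norm_num) (by norm_num)).symm
        | exact n1
        | exact n1.symm
        | exact n2
        | exact n2.symm
        | exact n3
    have hep := ep4 (G := G) (x 2) (y 2 0) (w 0) (x 0) (y 0 0) (z 0 1) (w 1) (y 3 1) (x 3) hnd
      (axw 2 0 (by norm_num) (by norm_num)) (axy 2 0 (by norm_num) (by norm_num))
      (awy 2 0 (by norm_num) (by norm_num))
      (awy 0 0 (by norm_num) (by norm_num)) (axw 0 0 (by norm_num) (by norm_num)).symm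
      (axy 0 0 (by norm_num) (by norm_num)).symm
      (h01 ▸ (awy 0 1 (by norm_num) (by norm_num)).symm)
      (h01 ▸ (ayz 0 1 (by norm_num) (by norm_num)))
      (awz 0 1 (by norm_num) (by norm_num))
      (axw 3 1 (by norm_num) (by norm_num)).symm (awy 3 1 (by norm_num) (by norm_num))
      (axy 3 1 (by norm_num) (by norm_num))
    refine fin8 hT hL hs hm h.grid h.cinj h.cen _ _ ⟨2, by omega, Or.inl rfl⟩
      ⟨3, by omega, Or.inl rfl⟩ (hxx 2 3 (by norm_num) (by norm_num) (by norm_num)) _ hep
      (List.toFinset_card_le _) (fun l => ?_)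
    simp only [List.mem_toFinset, List.mem_cons, List.not_mem_nil, or_false, not_or]
    exact ⟨hcx l _ (by norm_num), hcw l _ (by norm_num), hcy l _ _ (by norm_num) (by norm_num),
      hcw l _ (by norm_num), hcx l _ (by norm_num), hcy l _ _ (by norm_num) (by norm_num),
      hcx l _ (by norm_num), hcz l _ _ (by norm_num) (by norm_num),
      hcy l _ _ (by norm_num) (by norm_num)⟩
  · by_cases h10 : y 1 0 = y 0 0
    · -- case (iii)
      have n1 : y 0 2 ≠ y 0 0 := by
        rw [← h10]
        exact hyy 0 2 1 0 (by norm_num) (by norm_num) (by norm_num) (by norm_num) (by norm_num)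
          (by norm_num)
      have n2 : y 1 3 ≠ y 0 0 := hyy 1 3 0 0 (by norm_num) (by norm_num) (by norm_num)
        (by norm_num) (by norm_num) (by norm_num)
      have n3 : y 0 2 ≠ y 1 3 := hyy 0 2 1 3 (by norm_num) (by norm_num) (by norm_num)
        (by norm_num) (by norm_num) (by norm_num)
      have hnd : [w 2, x 0, y 0 0, x 1, w 3, y 0 2, w 0, u 1 0, y 1 3].Nodup := by
        simp only [List.nodup_cons, List.mem_cons, List.not_mem_nil, or_false, not_or,
          List.nodup_nil, and_true, not_false_eq_true]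
        and_intros <;> first
          | exact hxw _ _ (by norm_num) (by norm_num)
          | exact (hxw _ _ (by norm_num) (by norm_num)).symm
          | exact hxx _ _ (by norm_num) (by norm_num) (by norm_num)
          | exact hww _ _ (by norm_num) (by norm_num) (by norm_num)
          | exact hyx _ _ _ (by norm_num) (by norm_num) (by norm_num)
          | exact (hyx _ _ _ (by norm_num) (by norm_num) (by norm_num)).symm
          | exact hyw _ _ _ (by norm_num) (by norm_num) (by norm_num)
          | exact (hyw _ _ _ (by norm_num) (by norm_num) (by norm_num)).symm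
          | exact hux _ _ _ (by norm_num) (by norm_num) (by norm_num)
          | exact (hux _ _ _ (by norm_num) (by norm_num) (by norm_num)).symm
          | exact huw _ _ _ (by norm_num) (by norm_num) (by norm_num)
          | exact (huw _ _ _ (by norm_num) (by norm_num) (by norm_num)).symm
          | exact huy _ _ _ _ (by norm_num) (by norm_num) (by norm_num) (by norm_num)
          | exact (huy _ _ _ _ (by norm_num) (by norm_num) (by norm_num) (by norm_num)).symm
          | exact n1
          | exact n1.symm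
          | exact n2
          | exact n2.symm
          | exact n3
      have hep := ep4 (G := G) (w 2) (y 0 2) (x 0) (w 0) (y 0 0) (u 1 0) (x 1) (y 1 3) (w 3) hnd
        (axw 0 2 (by norm_num) (by norm_num)).symm (awy 0 2 (by norm_num) (by norm_num))
        (axy 0 2 (by norm_num) (by norm_num))
        (axy 0 0 (by norm_num) (by norm_num)) (axw 0 0 (by norm_num) (by norm_num))
        (awy 0 0 (by norm_num) (by norm_num)).symm
        (h10 ▸ (axy 1 0 (by norm_num) (by norm_num)).symm)
        (h10 ▸ (ayu 1 0 (by norm_num) (by norm_num)))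
        (axu 1 0 (by norm_num) (by norm_num))
        (axw 1 3 (by norm_num) (by norm_num)) (axy 1 3 (by norm_num) (by norm_num))
        (awy 1 3 (by norm_num) (by norm_num))
      refine fin8 hT hL hs hm h.grid h.cinj h.cen _ _ ⟨2, by omega, Or.inr rfl⟩
        ⟨3, by omega, Or.inr rfl⟩ (hww 2 3 (by norm_num) (by norm_num) (by norm_num)) _ hep
        (List.toFinset_card_le _) (fun l => ?_)
      simp only [List.mem_toFinset, List.mem_cons, List.not_mem_nil, or_false, not_or]
      exact ⟨hcw l _ (by norm_num), hcx l _ (by norm_num), hcy l _ _ (by norm_num) (by norm_num),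
        hcx l _ (by norm_num), hcw l _ (by norm_num), hcy l _ _ (by norm_num) (by norm_num),
        hcw l _ (by norm_num), hcu l _ _ (by norm_num) (by norm_num),
        hcy l _ _ (by norm_num) (by norm_num)⟩
    · -- case (i)
      have n3 : y 0 1 ≠ y 1 0 := hyy 0 1 1 0 (by norm_num) (by norm_num) (by norm_num)
        (by norm_num) (by norm_num) (by norm_num)
      have hnd : [w 1, x 0, y 0 0, w 0, x 1, y 0 1, u 0 0, z 0 0, y 1 0].Nodup := by
        simp only [List.nodup_cons, List.mem_cons, List.not_mem_nil, or_false, not_or,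
          List.nodup_nil, and_true, not_false_eq_true]
        and_intros <;> first
          | exact hxw _ _ (by norm_num) (by norm_num)
          | exact (hxw _ _ (by norm_num) (by norm_num)).symm
          | exact hxx _ _ (by norm_num) (by norm_num) (by norm_num)
          | exact hww _ _ (by norm_num) (by norm_num) (by norm_num)
          | exact hyx _ _ _ (by norm_num) (by norm_num) (by norm_num)
          | exact (hyx _ _ _ (by norm_num) (by norm_num) (by norm_num)).symm
          | exact hyw _ _ _ (by norm_num) (by norm_num) (by norm_num)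
          | exact (hyw _ _ _ (by norm_num) (by norm_num) (by norm_num)).symm
          | exact hux _ _ _ (by norm_num) (by norm_num) (by norm_num)
          | exact (hux _ _ _ (by norm_num) (by norm_num) (by norm_num)).symm
          | exact huw _ _ _ (by norm_num) (by norm_num) (by norm_num)
          | exact (huw _ _ _ (by norm_num) (by norm_num) (by norm_num)).symm
          | exact huy _ _ _ _ (by norm_num) (by norm_num) (by norm_num) (by norm_num)
          | exact (huy _ _ _ _ (by norm_num) (by norm_num) (by norm_num) (by norm_num)).symm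
          | exact hzx _ _ _ (by norm_num) (by norm_num) (by norm_num)
          | exact (hzx _ _ _ (by norm_num) (by norm_num) (by norm_num)).symm
          | exact hzw _ _ _ (by norm_num) (by norm_num) (by norm_num)
          | exact (hzw _ _ _ (by norm_num) (by norm_num) (by norm_num)).symm
          | exact hzy _ _ _ _ (by norm_num) (by norm_num) (by norm_num) (by norm_num)
          | exact (hzy _ _ _ _ (by norm_num) (by norm_num) (by norm_num) (by norm_num)).symm
          | exact huz _ _ _ _ (by norm_num) (by norm_num) (by norm_num) (by norm_num)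
          | exact h01
          | exact Ne.symm h01
          | exact h10
          | exact Ne.symm h10
          | exact n3
      have hep := ep4 (G := G) (w 1) (y 0 1) (x 0) (u 0 0) (y 0 0) (z 0 0) (w 0) (y 1 0) (x 1) hnd
        (axw 0 1 (by norm_num) (by norm_num)).symm (awy 0 1 (by norm_num) (by norm_num))
        (axy 0 1 (by norm_num) (by norm_num))
        (axy 0 0 (by norm_num) (by norm_num)) (axu 0 0 (by norm_num) (by norm_num))
        (ayu 0 0 (by norm_num) (by norm_num))
        (awy 0 0 (by norm_num) (by norm_num)).symm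
        (ayz 0 0 (by norm_num) (by norm_num))
        (awz 0 0 (by norm_num) (by norm_num))
        (axw 1 0 (by norm_num) (by norm_num)).symm (awy 1 0 (by norm_num) (by norm_num))
        (axy 1 0 (by norm_num) (by norm_num))
      refine fin8 hT hL hs hm h.grid h.cinj h.cen _ _ ⟨1, by omega, Or.inr rfl⟩
        ⟨1, by omega, Or.inl rfl⟩ (hxw 1 1 (by norm_num) (by norm_num)).symm _ hep
        (List.toFinset_card_le _) (fun l => ?_)
      simp only [List.mem_toFinset, List.mem_cons, List.not_mem_nil, or_false, not_or]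
      exact ⟨hcw l _ (by norm_num), hcx l _ (by norm_num), hcy l _ _ (by norm_num) (by norm_num),
        hcw l _ (by norm_num), hcx l _ (by norm_num), hcy l _ _ (by norm_num) (by norm_num),
        hcu l _ _ (by norm_num) (by norm_num), hcz l _ _ (by norm_num) (by norm_num),
        hcy l _ _ (by norm_num) (by norm_num)⟩

end Pool.Agent.Helper65.Tri
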