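import Pool.Agent.Helper61.Tri.Goals2

/-! Packet TFMAX. -/

set_option autoImplicit false

open Finset

namespace Pool.Agent.Helper65.Tri

open Pool.Agent.Helper61.Tri

open scoped Classical

theorem mem_nb {V : Type} [Fintype V] (J : SimpleGraph V) (u v : V) :
    v ∈ nb J u ↔ J.Adj u v := by
  simp [nb]

theorem mem_oe {V : Type} [Fintype V] (J : SimpleGraph V) (p : V × V) :
    p ∈ oe J ↔ J.Adj p.1 p.2 := by
  simp [oe]

theorem card_part {V : Type} [Fintype V] (J : SimpleGraph V) (M : Finset V) :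
    ((oe J).filter (fun p => p.1 ∈ M)).card = ∑ u ∈ M, (nb J u).card := by
  rw [Finset.card_eq_sum_card_fiberwise (f := Prod.fst) (t := M)]
  · refine Finset.sum_congr rfl fun u hu => ?_
    refine Finset.card_nbij' (fun p => p.2) (fun v => (u, v)) ?_ ?_ ?_ ?_
    · intro p hp
      simp only [Finset.coe_filter, Set.mem_ofPred_eq, Finset.mem_filter, mem_oe] at hp
      obtain ⟨⟨h1, h2⟩, h3⟩ := hp
      simp only [Finset.mem_coe, mem_nb]
      rw [← h3]; exact h1
    · intro v hv
      simp only [Finset.mem_coe, mem_nb] at hv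
      simp only [Finset.coe_filter, Set.mem_ofPred_eq, Finset.mem_filter, mem_oe]
      exact ⟨⟨hv, hu⟩, trivial⟩
    · intro p hp
      simp only [Finset.coe_filter, Set.mem_ofPred_eq, Finset.mem_filter, mem_oe] at hp
      obtain ⟨_, h3⟩ := hp
      rw [← h3]
    · intro v _
      rfl
  · intro p hp
    simp only [Finset.coe_filter, Set.mem_ofPred_eq] at hp
    exact hp.2

theorem tfmax : TFmax := by
  intro V _ J W hTF hW z hz hmax
  set N := nb J z with hN
  have hNW : N ⊆ W := by
    intro v hv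
    exact hW v z ((mem_nb J z v).1 hv).symm
  set M := W \ N with hM
  have hMc : M.card = W.card - N.card := Finset.card_sdiff_of_subset hNW
  set A := (oe J).filter (fun p => p.1 ∈ M) with hA
  set B := (oe J).filter (fun p => ¬ p.1 ∈ M) with hB
  have hAB : A.card + B.card = (oe J).card := Finset.card_filter_add_card_filter_not _
  have hAs : A.card = ∑ u ∈ M, (nb J u).card := card_part J M
  have hAle : A.card ≤ M.card * N.card := by
    rw [hAs]
    calc ∑ u ∈ M, (nb J u).card ≤ ∑ _u ∈ M, N.card := Finset.sum_le_sum fun u _ => hmax u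
      _ = M.card * N.card := by rw [Finset.sum_const, smul_eq_mul]
  have hBprop : ∀ p ∈ B, p.1 ∈ N ∧ p.2 ∈ M := by
    intro p hp
    rw [hB, Finset.mem_filter, mem_oe] at hp
    obtain ⟨h1, h2⟩ := hp
    have h3 : p.1 ∈ W := hW _ _ h1
    have h4 : p.1 ∈ N := by
      by_contra h
      exact h2 (Finset.mem_sdiff.2 ⟨h3, h⟩)
    refine ⟨h4, Finset.mem_sdiff.2 ⟨hW _ _ h1.symm, fun h5 => ?_⟩⟩
    exact hTF z p.1 p.2 ((mem_nb J z _).1 h4) ((mem_nb J z _).1 h5) h1
  set A' := A.filter (fun p => p.2 ∈ N) with hA'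
  have hBA : B.card ≤ A'.card := by
    refine Finset.card_le_card_of_injOn Prod.swap ?_ (Prod.swap_injective.injOn)
    intro p hp
    have hp' : p ∈ B := hp
    obtain ⟨h1, h2⟩ := hBprop p hp'
    rw [hB, Finset.mem_filter, mem_oe] at hp'
    rw [Finset.mem_coe, hA', Finset.mem_filter, hA, Finset.mem_filter, mem_oe]
    exact ⟨⟨hp'.1.symm, h2⟩, h1⟩
  have hA'A : A'.card ≤ A.card := Finset.card_le_card (Finset.filter_subset _ _)
  have hMN : M.card * N.card = N.card * (W.card - N.card) := by rw [hMc, mul_comm]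
  refine ⟨Finset.card_le_card hNW, ?_, ?_⟩
  · rw [← hMN]; omega
  · intro heq
    rw [← hMN] at heq
    have hA1 : A.card = M.card * N.card := by omega
    have hA2 : A'.card = A.card := by omega
    have hA3 : A' = A := Finset.eq_of_subset_of_card_le (Finset.filter_subset _ _) hA2.ge
    have hdeg : ∀ u ∈ M, (nb J u).card = N.card := by
      have h1 : ∑ u ∈ M, (nb J u).card = ∑ _u ∈ M, N.card := by
        rw [← hAs, hA1, Finset.sum_const, smul_eq_mul]
      exact (Finset.sum_eq_sum_iff_of_le (fun u _ => hmax u)).1 h1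
    have hnb : ∀ u ∈ M, nb J u = N := by
      intro u hu
      refine Finset.eq_of_subset_of_card_le ?_ (hdeg u hu).ge
      intro v hv
      have h1 : (u, v) ∈ A := by
        rw [hA, Finset.mem_filter, mem_oe]
        exact ⟨(mem_nb J u v).1 hv, hu⟩
      rw [← hA3, hA', Finset.mem_filter] at h1
      exact h1.2
    intro u hu v hv
    constructor
    · intro h
      by_cases h1 : u ∈ N
      · left
        refine ⟨h1, fun h2 => ?_⟩
        exact hTF z u v ((mem_nb J z _).1 h1) ((mem_nb J z _).1 h2) h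
      · right
        refine ⟨h1, ?_⟩
        rw [← hnb u (Finset.mem_sdiff.2 ⟨hu, h1⟩)]
        exact (mem_nb J u v).2 h
    · rintro (⟨h1, h2⟩ | ⟨h1, h2⟩)
      · have h3 := hnb v (Finset.mem_sdiff.2 ⟨hv, h2⟩)
        rw [← h3] at h1
        exact ((mem_nb J v u).1 h1).symm
      · have h3 := hnb u (Finset.mem_sdiff.2 ⟨hu, h1⟩)
        rw [← h3] at h2
        exact (mem_nb J u v).1 h2

end Pool.Agent.Helper65.Tri
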